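import Pool.Agent.Work.MP_2a522c_an.Main
import Pool.Agent.Work.MP_72ad00_an.F.F4

/-!
From the robust inequality for flats to a weak estimate for rich plates.
-/

set_option autoImplicit false

open Finset Real MeasureTheory
open scoped ENNReal NNReal

namespace Pool.Agent.Work.MP_2a522c_an.W

open Pool.Agent.Lib.PFR MP_72ad00_an MP_72ad00_an.H MP_72ad00_an.F

/-- The weak estimate for `k`-plates in `ℝ^(k+l)` with loss `δ ^ a`. -/
def KakW (k l : ℕ) (a : ℝ) : Prop :=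
  ∃ P : ℝ, 0 < P ∧ ∀ (η : ℝ) (δ lam R D : ℝ≥0) (Y : Set (Vc k × Vc l)), P ≤ η → 0 < δ →
    (δ : ℝ) ≤ exp (- (P * η)) → exp (- η) ≤ lam → 1 ≤ R → (R : ℝ) ≤ exp η → (D : ℝ) ≤ exp η →
    (∀ y ∈ Y, ‖y.1‖ ≤ R) → ENNReal.ofReal (exp (- η)) ≤ volume (Bad Y δ lam D) →
    ENNReal.ofReal (exp (a * log δ - P * η)) ≤ volume Y

variable {k l : ℕ}

/-- The cell of a point of the product. -/
noncomputable def lab (K R : ℝ) (p : Vc k × Vc l) : Vc k × Vc l :=
  (H.cell fun i => K * (p.1 i + 2 * R) / (4 * R), H.cell (K • p.2))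

theorem meas_cell {α : Type} [MeasurableSpace α] {f : α → Vc l} (hf : Measurable f) :
    Measurable fun a => H.cell (f a) :=
  measurable_pi_lambda _ fun i => (measurable_from_top (f := fun z : ℤ => (z : ℝ))).comp
    ((measurable_pi_apply i).comp hf).floor

theorem meas_lab (K R : ℝ) (b : Vc k × Vc l) : MeasurableSet (lab K R ⁻¹' {b}) :=
  ((meas_cell (by fun_prop)).prodMk (meas_cell (by fun_prop))) (measurableSet_singleton b)

theorem cell_ball {E : Type} [NormedAddCommGroup E] [NormedSpace ℝ E] {K : ℝ} (hK : 0 < K)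
    {v u : E} (h : ‖K • v - u‖ ≤ 1) : v ∈ Metric.closedBall (K⁻¹ • u) K⁻¹ := by
  rw [mem_closedBall_iff_norm, ← inv_smul_smul₀ hK.ne' v, ← smul_sub, norm_smul,
    Real.norm_of_nonneg (by positivity)]
  exact mul_le_of_le_one_right (by positivity) h

theorem vol_lab {K R : ℝ} (hK : 0 < K) (hR : 0 < R) (b : Vc k × Vc l) :
    volume (lab K R ⁻¹' {b}) ≤ ENNReal.ofReal ((8 * R) ^ k * 2 ^ l / (K ^ k * K ^ l)) := by
  have h : lab K R ⁻¹' {b} ⊆ Metric.closedBall (fun i => 4 * R / K * b.1 i - 2 * R) (4 * R / K) ×ˢ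
      Metric.closedBall (K⁻¹ • b.2) K⁻¹ := fun p hp => by
    obtain ⟨h1, h2⟩ := Prod.ext_iff.1 (Set.mem_singleton_iff.1 hp)
    refine ⟨mem_closedBall_iff_norm.2 ((pi_norm_le_iff_of_nonneg (by positivity)).2 fun i => ?_),
      cell_ball hK (norm_of_cell h2)⟩
    have h3 := (norm_le_pi_norm _ i).trans (norm_of_cell h1)
    have e : p.1 i - (4 * R / K * b.1 i - 2 * R) =
      4 * R / K * (K * (p.1 i + 2 * R) / (4 * R) - b.1 i) := by field_simp; ring
    rw [Pi.sub_apply, e, norm_mul, Real.norm_of_nonneg (by positivity)]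
    exact mul_le_of_le_one_right (by positivity) h3
  refine (measure_mono h).trans (le_of_eq ?_)
  rw [Measure.volume_eq_prod, Measure.prod_prod, Real.volume_pi_closedBall _ (by positivity),
    Real.volume_pi_closedBall _ (by positivity), ← ENNReal.ofReal_mul (by positivity),
    Fintype.card_fin, Fintype.card_fin, ← div_mul_div_comm, ← div_pow, ← div_pow]
  congr 3
  all_goals ring

theorem rich {K : ℕ} {η δ R : ℝ} (hη : 10 + (k : ℝ) ≤ η) (hK : (0 : ℝ) < K) (hδ : K * δ ≤ 2)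
    (R1 : 1 ≤ R) (hR : R ≤ exp η) {B : Fin k → Vc l} (hB : ‖B‖ ≤ exp η) (x : Vc l) :
    ∃ A : (Fin k → Fin K) → Finset (Vc l), (∀ q, ((A q).card : ℝ) ≤ exp (l * (3 * η + 2))) ∧
      (∀ q, ∀ u ∈ A q, ‖(K : ℝ) • (x - ∑ i, (2 * R) • B i) +
        ∑ i, (((q i : ℕ) : ℝ) / K) • ((4 * R * K) • B) i - u‖ ≤ exp (4 * η)) ∧
      ∀ p ∈ plate B x δ, ‖p.1‖ ≤ R → ∃ q, ∃ u ∈ A q, lab K R p = (fun i => ((q i : ℕ) : ℝ), u) := by
  have k0 := Nat.cast_nonneg (α := ℝ) k
  choose A h1 h2 using fun q : Fin k → Fin K => exists_cells ((K : ℝ) • (x - ∑ i, (2 * R) • B i) +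
    ∑ i, (((q i : ℕ) : ℝ) / K) • ((4 * R * K) • B) i) (by linarith only [hη] : 0 ≤ 3 * η)
  refine ⟨fun q => fl (A q) _, fun q => (card_fl_le _ _).trans (h1 q),
    fun q u hu => (mem_fl.1 hu).2, fun p hp hR' => ?_⟩
  have a1 : ∀ i, |p.1 i| ≤ R := fun i => (norm_le_pi_norm p.1 i).trans hR'
  have a2 : ∀ i, 0 ≤ K * (p.1 i + 2 * R) / (4 * R) := fun i =>
    div_nonneg (mul_nonneg hK.le (by linarith only [R1, a1, abs_le.1 (a1 i)])) (by linarith)
  have a3 : ∀ i, ⌊K * (p.1 i + 2 * R) / (4 * R)⌋₊ < K := fun i => by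
    rw [Nat.floor_lt (a2 i), div_lt_iff₀ (by linarith only [R1])]
    exact mul_lt_mul_of_pos_left (by linarith [abs_le.1 (a1 i)]) hK
  have a4 : ‖(K : ℝ) • p.2 - ((K : ℝ) • (x - ∑ i, (2 * R) • B i) +
      ∑ i, ((⌊K * (p.1 i + 2 * R) / (4 * R)⌋₊ : ℝ) / K) • ((4 * R * K) • B) i)‖ ≤
      2 * exp (3 * η) := by
    have e : (K : ℝ) • p.2 - ((K : ℝ) • (x - ∑ i, (2 * R) • B i) +
        ∑ i, ((⌊K * (p.1 i + 2 * R) / (4 * R)⌋₊ : ℝ) / K) • ((4 * R * K) • B) i) =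
        (K : ℝ) • (p.2 - x - ∑ i, p.1 i • B i) + ∑ i, (4 * R * (K * (p.1 i + 2 * R) / (4 * R) -
          ⌊K * (p.1 i + 2 * R) / (4 * R)⌋₊)) • B i := by
      have e1 : ∀ i, (4 * R * (K * (p.1 i + 2 * R) / (4 * R) -
          ⌊K * (p.1 i + 2 * R) / (4 * R)⌋₊)) • B i = (K : ℝ) • p.1 i • B i +
          (K : ℝ) • (2 * R) • B i -
          ((⌊K * (p.1 i + 2 * R) / (4 * R)⌋₊ : ℝ) / K) • ((4 * R * K) • B) i := fun i => by
        rw [Pi.smul_apply]
        match_scalars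
        field_simp
      simp only [e1, sum_sub_distrib, sum_add_distrib, ← smul_sum]
      module
    have b1 := sum_close (c := fun i => 4 * R * (K * (p.1 i + 2 * R) / (4 * R) -
      ⌊K * (p.1 i + 2 * R) / (4 * R)⌋₊)) (C := 4 * exp η) (fun i => by
        rw [abs_mul, abs_of_nonneg (by linarith only [R1] : 0 ≤ 4 * R),
          abs_of_nonneg (sub_nonneg.2 (Nat.floor_le (a2 i)))]
        linarith only [hR, R1, Nat.lt_floor_add_one (K * (p.1 i + 2 * R) / (4 * R)), Nat.floor_le (a2 i), mul_nonneg_of_nonpos_of_nonpos (Mathlib.Tactic.Linarith.sub_nonpos_of_le R1) (le_of_lt (Mathlib.Tactic.Linarith.sub_neg_of_lt (Nat.lt_floor_add_one (↑K * (p.1 i + (2 : ℝ) * R) / ((4 : ℝ) * R)))))])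
      (u := B) (v := 0) (ρ := exp η) (by rwa [sub_zero])
    simp only [Pi.zero_apply, smul_zero, sum_const_zero, sub_zero] at b1
    rw [e]
    refine (norm_add_le _ _).trans ?_
    rw [norm_smul, Real.norm_of_nonneg hK.le, show 3 * η = η + (η + η) by ring, exp_add, exp_add]
    have b2 : 1 ≤ exp η * exp η := by rw [← exp_add]; exact one_le_exp (by linarith only [hη])
    linarith only [hδ, b1, b2, hp, hK, hη, mul_le_mul_of_nonneg_left (show ‖p.2 - x - ∑ i, p.1 i • B i‖ ≤ δ from hp) hK.le,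
      mul_le_mul_of_nonneg_right (le_exp_of hη) (zero_le_one.trans b2), mul_nonneg_of_nonpos_of_nonpos (Mathlib.Tactic.Linarith.sub_nonpos_of_le (mul_self_nonneg (rexp η))) (Mathlib.Tactic.Linarith.sub_nonpos_of_le (Mathlib.Tactic.Linarith.natCast_nonneg ℝ k))]
  refine ⟨fun i => ⟨_, a3 i⟩, _, mem_fl.2 ⟨h2 _ _ a4, ?_⟩,
    Prod.ext (funext fun i => (natCast_floor_eq_intCast_floor (a2 i)).symm) rfl⟩
  refine (norm_sub_le_norm_sub_add_norm_sub _ ((K : ℝ) • p.2) _).trans ?_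
  rw [norm_sub_rev]
  linarith only [a3, a4, hη, norm_sub_cell ((K : ℝ) • p.2), c2_le_exp (by linarith : 3 * η + 2 ≤ 4 * η),
    one_le_exp (by linarith : 0 ≤ 3 * η)]

theorem dirs {K : ℕ} {η : ℝ} (hη : 0 ≤ η) (hK : (1 : ℝ) ≤ K) {G : Set (Fin k → Vc l)}
    (hG : ∀ B ∈ G, ‖B‖ ≤ exp η) (h : ENNReal.ofReal (exp (- η)) ≤ volume G) :
    ∃ (T : Finset (Fin k → Vc l)) (B : T → Fin k → Vc l), (∀ ω, B ω ∈ G) ∧
      (∀ ω, cellF ((K : ℝ) • B ω) = ω) ∧ exp (k * (l * log K) - η - k * l) ≤ T.card := by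
  have hK0 : (0 : ℝ) < K := by linarith
  obtain ⟨A, -, h2⟩ := dir_cellsF (m := l) (k := k) hK hη
  choose B h3 h4 using fun ω : fl A fun u => ∃ B ∈ G, cellF ((K : ℝ) • B) = u => (mem_fl.1 ω.2).2
  refine ⟨_, B, h3, h4, ?_⟩
  have h5 : G ⊆ ⋃ u ∈ fl A fun u => ∃ B ∈ G, cellF ((K : ℝ) • B) = u,
      Metric.closedBall ((K : ℝ)⁻¹ • u) (K : ℝ)⁻¹ := fun B hB =>
    Set.mem_iUnion₂.2 ⟨_, mem_fl.2 ⟨h2 _ (by
      rw [norm_smul, Real.norm_of_nonneg hK0.le, mul_comm]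
      exact mul_le_mul_of_nonneg_right (hG B hB) hK0.le), B, hB, rfl⟩,
      cell_ball hK0 (norm_sub_cellF _)⟩
  have h6 := h.trans ((measure_mono h5).trans (measure_biUnion_finset_le _ _))
  have h7 : ∀ u : Fin k → Vc l, volume (Metric.closedBall u (K : ℝ)⁻¹) =
      ENNReal.ofReal (((2 * (K : ℝ)⁻¹) ^ l) ^ k) := fun u => by
    rw [MeasureTheory.volume_pi_closedBall _ (by positivity), ENNReal.ofReal_pow (by positivity)]
    simp only [Real.volume_pi_closedBall _ (by positivity : 0 ≤ (K : ℝ)⁻¹), prod_const, card_univ,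
      Fintype.card_fin]
  simp only [h7] at h6
  rw [sum_const, nsmul_eq_mul, ← ENNReal.ofReal_natCast, ← ENNReal.ofReal_mul (Nat.cast_nonneg _),
    ENNReal.ofReal_le_ofReal_iff (by positivity)] at h6
  have h8 : ((2 * (K : ℝ)⁻¹) ^ l) ^ k ≤ exp (k * (l * (1 - log K))) := by
    rw [exp_nat_mul, exp_nat_mul, exp_sub, exp_log hK0, ← div_eq_mul_inv]
    gcongr
    linarith only [e1]
  refine le_of_mul_le_mul_right ?_ (exp_pos (k * (l * (1 - log K))))
  exact (exp_mul_le (by linarith only [])).trans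
    (h6.trans (mul_le_mul_of_nonneg_left h8 (Nat.cast_nonneg _)))

theorem kakW {c : ℝ} (h : RF l k c) (h0 : 0 ≤ c) (h1 : c ≤ 1) : KakW k l (c * l) := by
  classical
  obtain ⟨p, p1, h⟩ := h
  have k0 := Nat.cast_nonneg (α := ℝ) k
  have l0 := Nat.cast_nonneg (α := ℝ) l
  have kl := mul_nonneg k0 l0
  have pp : 0 ≤ (p + 2) * (10 + 5 * l + 2 * k) := by positivity
  refine ⟨(p + 2) * (10 + 5 * l + 2 * k) + (10 + k + l + 3 * (k * l)), by positivity,
    fun η δ lam R D Y hη δ0 hδ hlam R1 hR hD hY hB => ?_⟩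
  by_contra! hc
  have δ1 : (0 : ℝ) < δ := δ0
  have R2 : (1 : ℝ) ≤ R := R1
  have η1 : 10 + k + l + 3 * (k * l) ≤ η := by linarith only [pp, hη]
  have lη := mul_le_mul_of_nonneg_left (by linarith only [kl, pp, hη] : 10 ≤ η) l0
  have kη := mul_le_mul_of_nonneg_left (by linarith only [kl, pp, hη] : 10 ≤ η) k0
  obtain ⟨ℓ, hℓ⟩ : ∃ ℓ, (10 + 5 * l + 2 * k) * η = ℓ := ⟨_, rfl⟩
  rw [add_mul, mul_assoc (p + 2), hℓ] at hδ hc
  have l1 : 10 * η ≤ ℓ := by linarith only [lη, kη, hℓ]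
  have pl : 0 ≤ p * ℓ := mul_nonneg (by linarith only [p1]) (by linarith only [kl, pp, hη, lη, kη, hℓ])
  have c1 := mul_le_mul_of_nonneg_right (by linarith only [kl] : 2 ≤ 10 + k + l + 3 * ((k : ℝ) * l))
    (by linarith only [kl, pp, hη] : 0 ≤ η)
  generalize (10 + k + l + 3 * ((k : ℝ) * l)) * η = y at hδ hc c1
  obtain ⟨K, K1, K2⟩ : ∃ K : ℕ, 1 ≤ (K : ℝ) * δ ∧ (K : ℝ) * δ ≤ 2 := by
    refine ⟨⌈1 / (δ : ℝ)⌉₊, (div_le_iff₀ δ1).1 (Nat.le_ceil _), ?_⟩
    have := mul_le_mul_of_nonneg_right (Nat.ceil_lt_add_one (by positivity : 0 ≤ 1 / (δ : ℝ))).le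
      δ1.le
    rw [add_mul, div_mul_cancel₀ _ δ1.ne'] at this
    linarith only [this, hδ, kl, pp, hη, lη, kη, hℓ, pl, c1, hδ.trans (exp_le_one_iff.2 (by linarith))]
  have hK : exp (p * ℓ) ≤ K := by
    refine le_of_mul_le_mul_right ?_ δ1
    exact ((mul_le_mul_of_nonneg_left hδ (exp_pos _).le).trans (exp_mul_le (c := 0)
      (by linarith only [kl, pp, hη, lη, kη, hℓ, c1]))).trans (exp_zero.trans_le K1)
  have hK1 : (1 : ℝ) ≤ K := (one_le_exp pl).trans hK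
  have hK0 : (0 : ℝ) < K := by linarith only [hK1]
  have hG : ∀ B ∈ Bad Y δ lam D, ‖B‖ ≤ exp η := fun B hB => hB.1.trans hD
  obtain ⟨T, B, t1, t2, t3⟩ := dirs (by linarith only [kl, pp, hη]) hK1 hG hB
  choose x hx using fun ω => (t1 ω).2
  choose A a1 a2 a3 using fun ω => rich (by linarith only [kl, pp, hη]) hK0 K2 R2 hR (hG _ (t1 ω))
    fun i => (x ω i : ℝ)
  have fin : volume Y ≠ ∞ := ne_top_of_lt hc
  have : IsFiniteMeasure (volume.restrict Y) := isFiniteMeasure_restrict.2 fin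
  obtain ⟨f, hf⟩ : ∃ f : (Fin k → Fin K) × Vc l → ℝ, ∀ z, f z = (volume.restrict Y).real
    (lab K R ⁻¹' {(fun i => ((z.1 i : ℕ) : ℝ), z.2)}) := ⟨_, fun _ => rfl⟩
  have f0 : ∀ z, 0 ≤ f z := fun z => hf z ▸ measureReal_nonneg
  set U := (univ ×ˢ univ).biUnion fun z : T × (Fin k → Fin K) => A z.1 z.2 with hU
  obtain ⟨θ, hθ⟩ : ∃ θ : ℝ, θ = exp (- ℓ) / (K ^ k * K ^ l) := ⟨_, rfl⟩
  have θ0 : 0 < θ := by rw [hθ]; positivity
  have hc2 : ∀ z, ms (fun _ : T => (1 : ℝ)) (fun ω => ‖(4 * R * K : ℝ) • B ω - z‖ ≤ 1) ≤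
      exp (2 * (k * l)) := fun z => by
    obtain ⟨A', b1, b2⟩ := exists_cellsF ((4 * R : ℝ)⁻¹ • z) le_rfl
    refine (ms_cover_le (fun _ => zero_le_one) A' (fun u ω => ω.1 = u)
      (fun ω _ h2 => ⟨_, b2 ((K : ℝ) • B ω) ?_, (t2 ω).symm⟩) (G := 1) (fun u _ => ?_) zero_le_one
      b1).trans (le_of_eq (by rw [mul_one]; congr 1; ring))
    · rw [mul_smul] at h2
      refine (mem_closedBall_iff_norm.1 (cell_ball (by linarith only [R1]) h2)).trans ?_
      rw [exp_zero]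
      linarith only [R1, inv_le_one_of_one_le₀ (by linarith : (1 : ℝ) ≤ 4 * R)]
    · simp only [ms, mul_one, ← card_fl_eq]
      exact Nat.cast_le_one.2 (card_le_one.2 fun a ha b hb =>
        Subtype.ext ((mem_fl.1 ha).2.trans (mem_fl.1 hb).2.symm))
  have key := h ℓ K T (fun _ => 1) (fun ω => (K : ℝ) • ((fun i => (x ω i : ℝ)) -
    ∑ i, (2 * R : ℝ) • B ω i)) (fun ω => (4 * R * K : ℝ) • B ω)
    (fun ω => fl univ fun q => ∃ u ∈ A ω q, θ ≤ f (q, u)) (2 * (k * l))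
    (fun q => fl U fun u => θ ≤ f (q, u)) (c * l * log δ - ((p + 2) * ℓ + y) + ℓ + l * log K)
    (k * (l * log K) - η - k * l) ⟨by linarith only [kl, pp, hη, lη, kη, hℓ], fun _ => zero_le_one, fun ω => ?_, fun ω _ => ?_,
      fun _ z => (ms_mono (fun _ => zero_le_one) fun _ _ h2 => h2.2).trans (hc2 z),
      fun ω _ q hq => ?_, ?_⟩ hK (fun z => (hc2 z).trans (exp_le_exp.2 (by linarith only [kl, pp, hη, lη, kη, hℓ])))
    (by simpa using t3)
  · have b1 : log K + log δ ≤ 1 := by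
      rw [← log_mul hK0.ne' δ1.ne']
      linarith only [K2, hK0, δ1, log_le_sub_one_of_pos (mul_pos hK0 δ1)]
    have b2 := mul_le_mul_of_nonneg_left b1 (mul_nonneg h0 l0)
    have b3 := mul_le_mul_of_nonneg_right h1 l0
    have b4 := mul_le_mul_of_nonneg_right h1 (by linarith only [kl, pp, hη] : 0 ≤ η + 3 * (k * l))
    linarith only [kl, pp, hη, lη, kη, hℓ, c1, key, b2, b3, b4]
  · rw [norm_smul, Real.norm_of_nonneg (by positivity), mul_right_comm]
    refine mul_le_mul_of_nonneg_right ((mul_le_mul (mul_le_mul_of_nonneg_left hR (by norm_num))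
      (hG _ (t1 ω)) (norm_nonneg _) (by positivity)).trans ?_) hK0.le
    rw [mul_assoc, ← exp_add]
    linarith only [kl, pp, hη, lη, kη, hℓ, c2_le_exp (by linarith : η + η + 2 ≤ ℓ), exp_pos (η + η)]
  · set S := fl univ fun q => ∃ u ∈ A ω q, θ ≤ f (q, u) with hS
    obtain ⟨V, hV⟩ : ∃ V : ℝ, V = exp (2 * (k * η) + l) / (K ^ k * K ^ l) := ⟨_, rfl⟩
    have V0 : 0 < V := by rw [hV]; positivity
    have b1 : ∀ z, f z ≤ V := fun z => by
      rw [hf, hV]
      refine ENNReal.toReal_le_of_le_ofReal (by positivity) ((Measure.restrict_apply_le _ _).trans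
        ((vol_lab hK0 (by linarith only [R1]) _).trans (ENNReal.ofReal_le_ofReal ?_)))
      rw [show 2 * (k * η) + l = k * (η + η) + l * 1 by ring, exp_add, exp_nat_mul, exp_nat_mul,
        exp_add]
      gcongr
      · linarith only [kl, pp, hη, le_exp_of (by linarith : 10 + (0 : ℝ) ≤ η)]
      · linarith only [e1]
    have b2 : Y ∩ plate (B ω) (fun i => x ω i) δ ⊆ ⋃ q ∈ (univ : Finset (Fin k → Fin K)),
        ⋃ u ∈ A ω q, lab K R ⁻¹' {(fun i => ((q i : ℕ) : ℝ), u)} ∩ Y := fun z hz => by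
      obtain ⟨q, u, u1, u2⟩ := a3 ω z hz.2 (hY z hz.1)
      exact Set.mem_iUnion₂.2 ⟨q, mem_univ _, Set.mem_iUnion₂.2 ⟨u, u1, u2, hz.1⟩⟩
    have b3 := (ENNReal.toReal_mono (ne_top_of_le_ne_top fin
      (measure_mono Set.inter_subset_left)) (hx ω)).trans ((measureReal_mono b2
        (ne_top_of_le_ne_top fin (measure_mono (Set.iUnion₂_subset fun _ _ => Set.iUnion₂_subset
          fun _ _ => Set.inter_subset_right)))).trans ((measureReal_biUnion_finset_le _ _).trans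
      (sum_le_sum fun q _ => (measureReal_biUnion_finset_le _ _).trans
        (?_ : _ ≤ exp (l * (3 * η + 2)) * (θ + ind (q ∈ S) * V)))))
    · rw [← mul_sum, sum_add_distrib, ← sum_mul, ← card_ind, sum_const, nsmul_eq_mul, card_par,
        hθ, hV] at b3
      simp only [ENNReal.toReal_mul, ENNReal.toReal_pow, ENNReal.coe_toReal] at b3
      have b4 := mul_le_mul_of_nonneg_right b3 (by positivity : (0 : ℝ) ≤ K ^ k * K ^ l)
      have b5 : (1 : ℝ) ≤ K ^ l * δ ^ l := by rw [← mul_pow]; exact one_le_pow₀ K1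
      have b6 : (K : ℝ) ^ k * exp (- η) ≤ exp (l * (3 * η + 2)) *
          (K ^ k * exp (- ℓ) + S.card * exp (2 * (k * η) + l)) := by
        refine le_trans ?_ (b4.trans_eq (by field_simp))
        linarith only [hlam, b5, hK0, mul_le_mul hlam b5 zero_le_one lam.2, pow_pos hK0 k, mul_nonneg_of_nonpos_of_nonpos (Mathlib.Tactic.Linarith.sub_nonpos_of_le (mul_le_mul hlam b5 zero_le_one lam.property)) (le_of_lt (Mathlib.Tactic.Linarith.sub_neg_of_lt (pow_pos hK0 k)))]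
      have b7 := mul_le_mul_of_nonneg_left
        ((exp_mul_le (le_refl (l * (3 * η + 2) + - ℓ))).trans ((le_div_iff₀' two_pos).2
          (two_le_exp (by linarith only [kl, pp, hη, lη, kη, hℓ] : l * (3 * η + 2) + - ℓ + 1 ≤ - η)))) (pow_pos hK0 k).le
      have b8 := mul_le_mul_of_nonneg_left ((mul_le_mul_of_nonneg_left
        (exp_mul_le (le_refl (l * (3 * η + 2) + (2 * (k * η) + l)))) zero_le_two).trans
          (two_le_exp (by linarith only [kl, pp, hη, lη, hℓ] : l * (3 * η + 2) + (2 * (k * η) + l) + 1 ≤ ℓ + - η)))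
        (Nat.cast_nonneg (α := ℝ) S.card)
      rw [exp_add ℓ] at b8
      refine le_of_mul_le_mul_right ?_ (exp_pos (- η))
      linarith only [b6, b7, b8]
    refine (sum_le_sum fun u hu => (?_ : _ ≤ θ + ind (q ∈ S) * V)).trans ?_
    · rw [← measureReal_restrict_apply (meas_lab _ _ _), ← hf (q, u)]
      by_cases h2 : q ∈ S
      · rw [ind_pos h2]
        linarith only [θ0, b1, b1 (q, u)]
      · rw [ind_neg h2, zero_mul, add_zero]
        exact (not_le.1 fun h3 => h2 (mem_fl.2 ⟨mem_univ _, u, hu, h3⟩)).le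
    · rw [sum_const, nsmul_eq_mul]
      exact mul_le_mul_of_nonneg_right (a1 ω q) (add_nonneg θ0.le (mul_nonneg (ind_nonneg _) V0.le))
  · obtain ⟨u, u1, u2⟩ := (mem_fl.1 hq).2
    exact ⟨u, mem_fl.2 ⟨mem_biUnion.2 ⟨(ω, q), mem_product.2 ⟨mem_univ _, mem_univ _⟩, u1⟩, u2⟩,
      (a2 ω q u u1).trans (exp_le_exp.2 (by linarith only [kl, pp, hη, lη, kη, hℓ]))⟩
  · have b1 : ∑ z ∈ univ ×ˢ U, f z ≤ exp (c * l * log δ - ((p + 2) * ℓ + y)) := by
      simp only [hf]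
      refine (sum_measureReal_le_measureReal_univ (fun _ _ => meas_lab _ _ _)
        fun z _ z' _ h2 => Disjoint.preimage _ (Set.disjoint_singleton.2 fun h3 => h2 ?_)).trans ?_
      · obtain ⟨h4, h5⟩ := Prod.ext_iff.1 h3
        exact Prod.ext (funext fun i => Fin.ext (Nat.cast_injective (congrFun h4 i))) h5
      · rw [measureReal_restrict_apply_univ]
        exact ENNReal.toReal_le_of_le_ofReal (exp_pos _).le hc.le
    refine le_of_mul_le_mul_right ?_ θ0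
    rw [sum_product] at b1
    simp only [card_fl_eq, sum_mul]
    refine (sum_le_sum fun q _ => sum_le_sum fun u _ => ?_).trans (b1.trans (le_of_eq ?_))
    · by_cases h2 : θ ≤ f (q, u)
      · rwa [ind_pos h2, one_mul]
      · rw [ind_neg h2, zero_mul]
        exact f0 _
    · rw [hθ, exp_add, exp_add, exp_nat_mul, exp_log hK0, exp_neg]
      field_simp

end Pool.Agent.Work.MP_2a522c_an.W
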