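import Pool.Agent.Work.MP_2a522c_an.W.W0

/-!
The truncation argument with the weak estimate, and the assembly.
-/

set_option autoImplicit false

open MeasureTheory Metric Set Filter Topology Real
open scoped ENNReal NNReal InnerProductSpace

namespace Pool.Agent.Work.MP_2a522c_an.W

open MP_72ad00_an.F

theorem abs_main {k l : ℕ} {a : ℝ} (hK : KakW k l a) (a0 : 0 ≤ a) {F : ℕ → Vc k × Vc l → ℝ}
    {K : Set (Vc k × Vc l)} {q : ℝ} (h : Reg F K q) (hq : 0 < q) (hq' : log q + a * log 2 < 0) :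
    ∀ᵐ B : Fin k → Vc l,
      (interior {x : Vc l | ∃ p ∈ K, x = p.2 - ∑ i, p.1 i • B i}).Nonempty := by
  obtain ⟨P, P0, hK⟩ := hK
  have L0 : 0 < log 2 := log_pos one_lt_two
  obtain ⟨σ, σ0, σ1, σ2⟩ : ∃ σ : ℝ, 0 < σ ∧ P * σ ≤ log 2 ∧
      log q + a * log 2 + (2 * a + P + 2) * σ < 0 := by
    refine ⟨min (log 2 / P) (- (log q + a * log 2) / (2 * (2 * a + P + 2))),
      lt_min (by positivity) (div_pos (by linarith) (by positivity)),
      (le_div_iff₀' P0).1 (min_le_left _ _), ?_⟩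
    linarith [(le_div_iff₀' (by positivity)).1 (min_le_right (log 2 / P)
      (- (log q + a * log 2) / (2 * (2 * a + P + 2))))]
  obtain ⟨ρ, eρ⟩ : ∃ ρ : ℝ≥0, (ρ : ℝ) = exp (- σ) := ⟨⟨_, (exp_pos _).le⟩, rfl⟩
  have hρ' : (0 : ℝ) < ρ := eρ ▸ exp_pos _
  have hρ : 0 < ρ := hρ'
  have hρ1 : (ρ : ℝ) < 1 := eρ ▸ exp_lt_one_iff.2 (by linarith)
  have eρj : ∀ j : ℕ, (ρ : ℝ) ^ j = exp (- (j * σ)) := fun j => by
    rw [eρ, ← exp_nat_mul, mul_neg]
  obtain ⟨M, hM⟩ := h.bdd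
  obtain ⟨C, c', hc', hloc⟩ := h.loc ρ hρ hρ1
  obtain ⟨C2, hsq⟩ := h.sq
  obtain ⟨R', c0, hc0, hlow⟩ := h.low
  let c : ℝ≥0 := ⟨min c' 1, (lt_min hc' one_pos).le⟩
  have hc : 0 < c := lt_min hc' one_pos
  have hc1 : (c : ℝ) ≤ 1 := min_le_right c' 1
  have hcc : (c : ℝ) ≤ c' := min_le_left c' 1
  let R : ℝ≥0 := ⟨max R' 1, zero_le_one.trans (le_max_right _ _)⟩
  have hR : 1 ≤ R := le_max_right R' 1
  have hRR : R' ≤ R := le_max_left R' 1
  let Y : ℕ → Set (Vc k × Vc l) := fun j =>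
    {p | ‖p.1‖ ≤ R ∧ (ρ : ℝ) ^ j ≤ |F j p - F (j + 1) p|}
  have hY : ∀ j, MeasurableSet (Y j) := fun j =>
    MeasurableSet.inter (s₁ := {p : Vc k × Vc l | ‖p.1‖ ≤ R})
      (measurableSet_le measurable_fst.norm measurable_const)
      (measurableSet_le measurable_const ((h.meas j).sub (h.meas (j + 1))).abs)
  have hall : ∀ᵐ B : Fin k → Vc l, ∀ D : ℕ, ∀ᶠ j in atTop,
      B ∉ Bad (Y j) (c / 2 * (ρ ^ 2 / 2) ^ (j + 1)) (ρ ^ j) D := ae_all_iff.2 fun D => by
    obtain ⟨J, hJ⟩ := eventually_atTop.1 (((tendsto_natCast_atTop_atTop.atTop_mul_const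
      σ0).eventually_ge_atTop (P + R + D)).and ((tendsto_natCast_atTop_atTop.atTop_mul_const
      (neg_pos.2 σ2)).eventually_gt_atTop (C2 - a * (log (c / 2) - 2 * σ - log 2))))
    have h1 : ∀ j, volume (Bad (Y (j + J)) (c / 2 * (ρ ^ 2 / 2) ^ (j + J + 1)) (ρ ^ (j + J)) D) ≤
        ENNReal.ofReal (ρ ^ (j + J)) := fun j => by
      obtain ⟨h2, h3⟩ := hJ (j + J) le_add_self
      generalize j + J = i at h2 h3 ⊢
      by_contra! h4
      have i0 := Nat.cast_nonneg (α := ℝ) i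
      have e1 : log ((c / 2 * (ρ ^ 2 / 2) ^ (i + 1) : ℝ≥0) : ℝ) =
          log (c / 2) + (i + 1) * (- (2 * σ) - log 2) := by
        push_cast
        rw [log_mul (by positivity) (by positivity), log_pow, log_div (by positivity) two_ne_zero,
          log_div (by positivity) two_ne_zero, log_pow, eρ, log_exp]
        push_cast
        ring
      have h5 := hK (i * σ) (c / 2 * (ρ ^ 2 / 2) ^ (i + 1)) (ρ ^ i) R D (Y i)
        (by linarith [R.coe_nonneg, Nat.cast_nonneg (α := ℝ) D])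
        (by positivity) ((log_le_iff_le_exp (by positivity)).1 (by
          rw [e1]
          nlinarith [log_nonpos (by positivity) (by linarith : (c : ℝ) / 2 ≤ 1),
            mul_le_mul_of_nonneg_left σ1 i0, mul_nonneg i0 σ0.le]))
        (by rw [NNReal.coe_pow, eρj]) hR
        (by linarith [add_one_le_exp (i * σ), Nat.cast_nonneg (α := ℝ) D])
        (by push_cast; linarith [add_one_le_exp (i * σ), R.coe_nonneg]) (fun _ hp => hp.1)
        (by rw [← eρj]; exact h4.le)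
      have h6 := (mul_le_mul_left (h5.trans (measure_mono fun p hp => hp.2)) _).trans
        (hsq i ((ρ : ℝ) ^ i) (by positivity))
      rw [← ENNReal.ofReal_mul (exp_pos _).le, ← ENNReal.ofReal_coe_nnreal,
        ← ENNReal.ofReal_mul C2.coe_nonneg, ENNReal.ofReal_le_ofReal_iff (by positivity), e1, eρj,
        ← exp_nat_mul, ← exp_add, ← exp_log hq, ← exp_nat_mul] at h6
      have h7 := h6.trans (mul_le_mul_of_nonneg_right
        (by linarith [add_one_le_exp (C2 : ℝ)] : (C2 : ℝ) ≤ exp C2) (exp_pos _).le)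
      rw [← exp_add, exp_le_exp] at h7
      push_cast at h7
      linarith
    filter_upwards [ae_eventually_notMem (ne_top_of_le_ne_top
      ((summable_nat_add_iff J).2 (summable_geometric_of_lt_one hρ'.le hρ1)).tsum_ofReal_ne_top
      (ENNReal.tsum_le_tsum h1))] with B hB
    rw [← map_add_atTop_eq_nat J]
    exact hB
  filter_upwards [hall] with B hB
  obtain ⟨D, hD⟩ := exists_nat_ge ‖B‖
  refine Abs.det h.meas (M := M) (ρ := ρ) (C := max C 0) (c := c) (R := R) (fun j u => (hM j u).2)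
    ((hM 0 0).1.trans (hM 0 0).2) hρ hρ1 (le_max_right _ _) hc (fun j u v hv => ?_) R.2 hc0
    (fun j => (hlow j).trans (lintegral_mono_set (closedBall_subset_closedBall hRR))) h.out B ?_
  · refine (hloc j u v (hv.trans ?_)).trans ?_
    · gcongr
    · gcongr
      exact le_max_left _ _
  · filter_upwards [hB D] with j hj x
    obtain ⟨x', h1, h2⟩ := Abs.good_slice (hY j) (by positivity) hD hj x
    refine ⟨x', h1.trans (le_of_eq ?_), h2.trans (le_of_eq ?_)⟩
    · push_cast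
      ring
    · rw [← NNReal.coe_pow, ENNReal.ofReal_coe_nnreal]

theorem cc_half (k : ℕ) : cc (k + 2) ≤ cc (k + 1) / 2 := by
  have h1 : 0.054 / ((k : ℝ) + 1.3) ≤ 0.1 := by
    rw [div_le_iff₀ (by positivity)]
    linarith [Nat.cast_nonneg (α := ℝ) k]
  rw [cc_succ]
  nlinarith [cc_pos k]

theorem cc_one_le (k : ℕ) : cc (k + 1) ≤ 1 := by
  induction k with
  | zero => rw [cc_one]; norm_num
  | succ k ih => linarith [cc_half k]

theorem good_k (l : ℕ) : ∀ N k : ℕ, cc (k + 1) * l < 2 ^ (N + 1) → ∃ k' : ℕ,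
    cc (k' + 1) * l < 2 ∧ k' + cc (k' + 1) * l ≤ k + cc (k + 1) * l := by
  intro N
  induction N with
  | zero => exact fun k hk => ⟨k, by simpa using hk, le_rfl⟩
  | succ N ih =>
    intro k hk
    by_cases h : cc (k + 1) * l < 2
    · exact ⟨k, h, le_rfl⟩
    have h1 := mul_le_mul_of_nonneg_right (cc_half k) (Nat.cast_nonneg (α := ℝ) l)
    rw [pow_succ] at hk
    obtain ⟨k', h2, h3⟩ := ih (k + 1) (by linarith)
    refine ⟨k', h2, h3.trans ?_⟩
    push_cast
    linarith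

theorem ae_matrix {n l k : ℕ} {E : Set (Vc n)} (hE : MeasurableSet E)
    (h : ENNReal.ofReal (l + (k + 1 : ℕ) + cc (k + 1) * l) < dimH E) :
    ∃ K ⊆ E, IsCompact K ∧ ∀ᵐ A : Fin l → Vc n, (interior (mv A '' K)).Nonempty := by
  obtain ⟨N, hN⟩ := pow_unbounded_of_one_lt (cc (k + 1) * l) one_lt_two
  obtain ⟨k0, k2, k3⟩ := good_k l N k (hN.trans (pow_lt_pow_right₀ one_lt_two N.lt_succ_self))
  have hK₀ := kakW (RF.best (m := l) k0) (cc_pos k0).le (cc_one_le k0)
  have a0 : 0 ≤ cc (k0 + 1) * l := mul_nonneg (cc_pos k0).le (Nat.cast_nonneg _)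
  generalize cc (k0 + 1) * l = a at k2 k3 hK₀ a0
  obtain ⟨k', hk'⟩ : ∃ k', k0 + 1 = k' := ⟨_, rfl⟩
  have k4 : (k0 : ℝ) + 1 = k' := by exact_mod_cast hk'
  rw [hk'] at hK₀
  have h1 : ENNReal.ofReal (l + k' + a) < min (dimH E) (ENNReal.ofReal (l + k' + 2)) :=
    lt_min ((ENNReal.ofReal_le_ofReal (by push_cast; linarith)).trans_lt h)
      ((ENNReal.ofReal_lt_ofReal_iff (by positivity)).2 (by linarith))
  obtain ⟨s, s0, s1, s2⟩ := ENNReal.lt_iff_exists_real_btwn.1 h1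
  rw [ENNReal.ofReal_lt_ofReal_iff_of_nonneg (by positivity)] at s1
  obtain ⟨s2, s3⟩ := lt_min_iff.1 s2
  rw [ENNReal.ofReal_lt_ofReal_iff (by positivity)] at s3
  have s4 : 0 < s := lt_of_le_of_lt (by positivity) s1
  obtain ⟨K, K1, K2, K3⟩ := exists_compact_cont hE s4 s2
  obtain ⟨μ, μ1, μ2, μ3, μ4⟩ := frostman K2 s4 K3
  refine ⟨K, K1, K2, ?_⟩
  have card : (Fintype.card (Fin k' ⊕ Fin l) : ℝ) = l + k' := by simp [add_comm]
  obtain ⟨q, q1, q2⟩ := exists_between (show (2 : ℝ) ^ ((l + k' : ℝ) - s) < 2 ^ (-a) from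
    Real.rpow_lt_rpow_of_exponent_lt one_lt_two (by linarith))
  have q0 : 0 < q := lt_trans (by positivity) q1
  have q3 : q < 1 := q2.trans_le (Real.rpow_le_one_of_one_le_of_nonpos one_le_two (by linarith))
  have q4 : log q + a * log 2 < 0 := by
    linarith [log_lt_log q0 q2, log_rpow two_pos (- a)]
  have H := gauss_l2 (ι := Fin k' ⊕ Fin l) μ μ4 (by rw [card]; linarith) (by rw [card]; linarith)
    (q := q) (by rwa [card])
  have e := volume_measurePreserving_sumPiEquivProdPi_symm (fun _ : Fin k' ⊕ Fin l => Vc n)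
  obtain ⟨G, hG⟩ : ∃ G, G = {A : Fin l → Vc n | (interior (mv A '' K)).Nonempty} := ⟨_, rfl⟩
  have mG : MeasurableSet G := hG ▸ meas_good K2
  obtain ⟨φ, hφ⟩ : ∃ φ : (Fin k' → Vc n) → (Fin k' → Vc l) → Fin l → Vc n,
    φ = fun A B i => ∑ i', B i' i • A i' := ⟨_, rfl⟩
  have H2 : ∀ᵐ z : (Fin k' → Vc n) × (Fin l → Vc n), ∀ᵐ B : Fin k' → Vc l, z.2 - φ z.1 B ∈ G := by
    filter_upwards [e.quasiMeasurePreserving.ae H] with z hz
    obtain ⟨F, hF⟩ := reg_of_l2 μ μ2 K2 μ3 q0 q3 _ hz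
    filter_upwards [abs_main hK₀ a0 (reg_sum hF) q0 q4] with B hB
    rw [hG]
    refine hB.mono (interior_mono ?_)
    rintro x ⟨p, ⟨y, hy, hp⟩, rfl⟩
    refine ⟨y, hy, funext fun i => ?_⟩
    have h2 : p.2 i = ∑ j, z.2 i j * y j := (congrFun hp (Sum.inr i)).symm
    have h3 : ∀ i', p.1 i' = ∑ j, z.1 i' j * y j := fun i' => (congrFun hp (Sum.inl i')).symm
    simp only [mv, hφ, Pi.sub_apply, Finset.sum_apply, Pi.smul_apply, smul_eq_mul, h2, h3, sub_mul,
      Finset.sum_sub_distrib, Finset.sum_mul]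
    rw [Finset.sum_comm]
    congr 1
    exact Finset.sum_congr rfl fun _ _ => Finset.sum_congr rfl fun _ _ => by ring
  obtain ⟨A, hA⟩ := (Measure.ae_ae_of_ae_prod H2).exists
  have mφ : Measurable fun z : (Fin l → Vc n) × (Fin k' → Vc l) => z.1 - φ A z.2 := by
    rw [hφ]
    fun_prop
  obtain ⟨B, hB⟩ := ((Measure.ae_ae_comm (p := fun A' B => A' - φ A B ∈ G) (mφ mG)).1 hA).exists
  have := (measurePreserving_add_right volume (φ A B)).quasiMeasurePreserving.ae hB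
  simpa [hG] using this

theorem main {n l k : ℕ} (γ : Measure (Gr n l)) [IsProbabilityMeasure γ]
    (hγ : ∀ (g : Eu n ≃ₗᵢ[ℝ] Eu n) (S : Set (Gr n l)), MeasurableSet S → γ (Gr.act g ⁻¹' S) = γ S)
    {E : Set (Eu n)} (hE : MeasurableSet E)
    (h : ENNReal.ofReal (l + (k + 1 : ℕ) + cc (k + 1) * l) < dimH E) :
    ∀ᵐ V ∂γ, (interior (V.1.orthogonalProjectionOnto '' E)).Nonempty := by
  let e : Eu n ≃L[ℝ] Vc n := PiLp.continuousLinearEquiv 2 ℝ _
  obtain ⟨K, K1, K2, K3⟩ := ae_matrix (E := e '' E)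
    (e.toHomeomorph.measurableEmbedding.measurableSet_image.2 hE) (by rwa [e.dimH_image])
  have m := measurePreserving_pi (fun _ : Fin l => (volume : Measure (Eu n)))
    (fun _ => (volume : Measure (Vc n))) fun _ => PiLp.volume_preserving_ofLp (Fin n)
  filter_upwards [grass_ae γ hγ (K2.image e.symm.continuous) (by
    filter_upwards [m.quasiMeasurePreserving.ae K3] with v hv
    refine hv.mono (interior_mono ?_)
    rintro _ ⟨x, hx, rfl⟩
    refine ⟨_, ⟨x, hx, rfl⟩, funext fun i => ?_⟩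
    simp [mv, e, PiLp.inner_apply, mul_comm])] with V hV
  refine hV.mono (interior_mono (image_mono ?_))
  rintro _ ⟨x, hx, rfl⟩
  obtain ⟨y, hy, rfl⟩ := K1 hx
  simpa using hy

end Pool.Agent.Work.MP_2a522c_an.W
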